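import Pool.Agent.H608R5.KL.Stm

set_option autoImplicit false

namespace Pool.Agent.TH200.KL

open Pool.Agent.H608R5.KL Finset

lemma dlt_comm {M : ℕ} (x y : I M) : dlt x y = dlt y x := by
  unfold dlt
  simp only [eq_comm]

lemma S_comm {M : ℕ} (d e : ZMod 4) (h : e = -d) (x y : I M) : S e y x = S d x y := by
  subst h
  unfold S
  rw [dlt_comm y x]
  have h1 : ∀ d : ZMod 4, (-d = 0 ↔ d = 0) ∧ (-d = 2 ↔ d = 2) := by decide
  simp only [(h1 d).1, (h1 d).2]

lemma dlt_cases {M : ℕ} (x y : I M) : dlt x y = 0 ∨ dlt x y = 1 := by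
  unfold dlt
  by_cases h : x = y
  · right
    rw [if_pos h]
  · left
    rw [if_neg h]

lemma sd_cases {M : ℕ} (x y : I M) : sam x y - dlt x y = 0 ∨ sam x y - dlt x y = 1 := by
  unfold dlt sam
  by_cases h : x = y
  · left
    rw [if_pos h, if_pos (by rw [h]), sub_self]
  · rw [if_neg h, sub_zero]
    by_cases h2 : x.1 = y.1
    · right
      rw [if_pos h2]
    · left
      rw [if_neg h2]

lemma S_cases {M : ℕ} (d : ZMod 4) (x y : I M) : S d x y = 0 ∨ S d x y = 1 := by
  unfold S
  split_ifs
  · rcases dlt_cases x y with h | h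
    · right
      rw [h, sub_zero]
    · left
      rw [h, sub_self]
  · left; rfl
  · right; rfl

lemma T_cases {M : ℕ} (d : ZMod 4) (x y : I M) : T d x y = 0 ∨ T d x y = 1 := by
  unfold T
  split_ifs
  · right; rfl
  · rcases dlt_cases x y with h | h
    · right
      rw [h, sub_zero]
    · left
      rw [h, sub_self]
  · exact sd_cases x y
  · left; rfl

theorem t_KW : S_KW := by
  intro M v w
  refine ⟨?_, ?_, ?_⟩
  · unfold W
    by_cases h : v.2.1 = w.2.1
    · rw [if_pos h, if_pos h.symm]
      exact (S_comm _ _ (by ring) _ _).symm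
    · rw [if_neg h, if_neg (Ne.symm h)]
      by_cases h2 : v.2.1 = false
      · have h3 : w.2.1 ≠ false := by
          intro h4
          exact h (h2.trans h4.symm)
        rw [if_pos h2, if_neg h3]
      · have h3 : w.2.1 = false := by
          cases hw : w.2.1
          · rfl
          · exfalso
            cases hv : v.2.1
            · exact h2 hv
            · exact h (hv.trans hw.symm)
        rw [if_neg h2, if_pos h3]
  · unfold W
    split_ifs
    · exact S_cases _ _ _
    · exact T_cases _ _ _
    · exact T_cases _ _ _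
  · unfold W S dlt
    simp

end Pool.Agent.TH200.KL
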